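import Pool.Agent.H962R3.RZ_GB
import Pool.Agent.H423R2.RZ2_UBA
import Pool.Agent.H509R2.RZ2_EF1

set_option autoImplicit false

namespace Pool.Agent.H962R3.RZ2_GB

open Finset Filter Topology MeasureTheory Pool.Agent.H306R2.RZ

theorem GB (F : ℝ → ℝ) (hF : TF F) (hF0 : ∀ x, 0 ≤ F x) (q : ℕ) (hq : Even q) (hq0 : q ≠ 0)
    (c : ℝ) (hc : 0 < c) (s θ : ℝ) (hA : Adm s θ) :
    ∃ (C L0 : ℝ) (k : ℕ), 0 < C ∧ ∀ L : ℝ, L0 ≤ L → ∀ (w w' Q Q' : ℝ → ℝ) (B B' m m' : ℝ),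
      Wt s w → Wt s w' → Wt θ Q → Wt θ Q' → Bd k w B → Bd k w' B → Bd k Q B' → Bd k Q' B' →
      EF F (c * Real.exp L) (fun d => (Nd q L w d * Md q L Q d) ^ 2) ≤ C * B ^ 2 * B' ^ 2 ∧
      EF F (c * Real.exp L) (fun d => G0 q L m w Q d ^ 2) ≤ C * (1 + m ^ 2 * B ^ 2 * B' ^ 2) ∧
      EF F (c * Real.exp L) (fun d => G1 q L m m' w w' Q Q' d ^ 2) ≤
        C * ((m ^ 2 + m' ^ 2) * B ^ 2 * B' ^ 2) :=
  Pool.Agent.H962R3.RZ_GB.GB_of F hF hF0 q hq hq0 c hc s θ hA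
    (Pool.Agent.H423R2.RZ2.UBA F hF q hq hq0 c hc s θ hA)
    (Pool.Agent.H509R2.RZEF1.EF1 F hF c hc)

end Pool.Agent.H962R3.RZ2_GB
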