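import Pool.Agent.H306R2.RZ.Defs2

set_option autoImplicit false

namespace Pool.Agent.H962R3.RZ_GB

open Finset Filter Topology MeasureTheory Pool.Agent.H306R2.RZ

lemma ev_zero (F : ℝ → ℝ) (hF : TF F) (X : ℝ) (hX : 0 < X) :
    ∃ N : ℕ, ∀ d : ℕ, N ≤ d → F ((d : ℝ) / X) = 0 := by
  have hb : Bornology.IsBounded (tsupport F) := IsCompact.isBounded hF.cpt
  obtain ⟨r, hr⟩ := hb.subset_closedBall 0
  obtain ⟨N, hN⟩ := exists_nat_gt (r * X)
  refine ⟨N, fun d hd => ?_⟩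
  by_contra h
  have h1 : (d : ℝ) / X ∈ tsupport F := subset_tsupport _ h
  have h2 := hr h1
  rw [Metric.mem_closedBall, Real.dist_eq, sub_zero] at h2
  have h3 : (d : ℝ) / X ≤ r := (le_abs_self _).trans h2
  rw [div_le_iff₀ hX] at h3
  have h4 : (N : ℝ) ≤ d := by exact_mod_cast hd
  linarith

lemma summ (F : ℝ → ℝ) (hF : TF F) (X : ℝ) (hX : 0 < X) (f : ℕ → ℝ) :
    Summable (fun d : ℕ => if Odd d then F ((d : ℝ) / X) * f d else 0) := by
  obtain ⟨N, hN⟩ := ev_zero F hF X hX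
  refine summable_of_ne_finset_zero (s := Finset.range N) ?_
  intro d hd
  rw [Finset.mem_range, not_lt] at hd
  simp [hN d hd]

lemma EF_mono (F : ℝ → ℝ) (hF : TF F) (hF0 : ∀ x, 0 ≤ F x) (X : ℝ) (hX : 0 < X)
    (f g : ℕ → ℝ) (h : ∀ d, f d ≤ g d) : EF F X f ≤ EF F X g := by
  unfold EF
  refine div_le_div_of_nonneg_right ?_ hX.le
  refine Summable.tsum_le_tsum ?_ (summ F hF X hX f) (summ F hF X hX g)
  intro d
  split_ifs
  · exact mul_le_mul_of_nonneg_left (h d) (hF0 _)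
  · exact le_rfl

lemma EF_add (F : ℝ → ℝ) (hF : TF F) (X : ℝ) (hX : 0 < X)
    (f g : ℕ → ℝ) : EF F X (fun d => f d + g d) = EF F X f + EF F X g := by
  unfold EF
  rw [← add_div, ← Summable.tsum_add (summ F hF X hX f) (summ F hF X hX g)]
  congr 1
  refine tsum_congr fun d => ?_
  split_ifs
  · ring
  · ring

lemma EF_smul (F : ℝ → ℝ) (X : ℝ) (a : ℝ)
    (f : ℕ → ℝ) : EF F X (fun d => a * f d) = a * EF F X f := by
  unfold EF
  rw [← mul_div_assoc, ← tsum_mul_left]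
  congr 1
  refine tsum_congr fun d => ?_
  split_ifs
  · ring
  · ring

/-- `GB` with the inputs `UBA` and `EF1` (for the given data) as hypotheses. -/
theorem GB_of (F : ℝ → ℝ) (hF : TF F) (hF0 : ∀ x, 0 ≤ F x) (q : ℕ) (_hq : Even q) (_hq0 : q ≠ 0)
    (c : ℝ) (hc : 0 < c) (s θ : ℝ) (_hA : Adm s θ)
    (hUBA : ∃ (C L0 : ℝ) (k : ℕ), 0 < C ∧ ∀ L : ℝ, L0 ≤ L →
      ∀ (w1 w2 Q1 Q2 : ℝ → ℝ) (B1 B2 B3 B4 : ℝ),
      Wt s w1 → Wt s w2 → Wt θ Q1 → Wt θ Q2 → Bd k w1 B1 → Bd k w2 B2 → Bd k Q1 B3 → Bd k Q2 B4 →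
      |TT F (c * Real.exp L) q L w1 Q1 w2 Q2| ≤ C * B1 * B2 * B3 * B4)
    (hE : Tendsto (fun L : ℝ => EF F (c * Real.exp L) (fun _ => 1)) atTop (𝓝 (1 / 2 * Ft F 0))) :
    ∃ (C L0 : ℝ) (k : ℕ), 0 < C ∧ ∀ L : ℝ, L0 ≤ L → ∀ (w w' Q Q' : ℝ → ℝ) (B B' m m' : ℝ),
      Wt s w → Wt s w' → Wt θ Q → Wt θ Q' → Bd k w B → Bd k w' B → Bd k Q B' → Bd k Q' B' →
      EF F (c * Real.exp L) (fun d => (Nd q L w d * Md q L Q d) ^ 2) ≤ C * B ^ 2 * B' ^ 2 ∧
      EF F (c * Real.exp L) (fun d => G0 q L m w Q d ^ 2) ≤ C * (1 + m ^ 2 * B ^ 2 * B' ^ 2) ∧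
      EF F (c * Real.exp L) (fun d => G1 q L m m' w w' Q Q' d ^ 2) ≤
        C * ((m ^ 2 + m' ^ 2) * B ^ 2 * B' ^ 2) := by
  obtain ⟨C, L1, k, hC, hU⟩ := hUBA
  obtain ⟨L2, hL2⟩ := Filter.eventually_atTop.mp (hE.eventually_le_const
    (show 1 / 2 * Ft F 0 < |1 / 2 * Ft F 0| + 1 from by
      have := le_abs_self (1 / 2 * Ft F 0); linarith))
  set A : ℝ := |1 / 2 * Ft F 0| + 1 with hAdef
  have hApos : 0 < A := by positivity
  refine ⟨2 * A + 6 * C, max L1 L2, k, by positivity, ?_⟩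
  intro L hL w w' Q Q' B B' m m' hw hw' hQ hQ' bw bw' bQ bQ'
  have hL1 : L1 ≤ L := (le_max_left _ _).trans hL
  have hL22 : L2 ≤ L := (le_max_right _ _).trans hL
  set X : ℝ := c * Real.exp L with hX
  have hXpos : 0 < X := by positivity
  have key : ∀ (u V : ℝ → ℝ), Wt s u → Wt θ V → Bd k u B → Bd k V B' →
      EF F X (fun d => (Nd q L u d * Md q L V d) ^ 2) ≤ C * B ^ 2 * B' ^ 2 := by
    intro u V hu hV bu bV
    have h1 := hU L hL1 u u V V B B B' B' hu hu hV hV bu bu bV bV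
    have h2 := (le_abs_self _).trans h1
    have h3 : TT F X q L u V u V = EF F X (fun d => (Nd q L u d * Md q L V d) ^ 2) := by
      unfold TT
      congr 1
      funext d
      ring
    rw [← h3]
    calc TT F X q L u V u V ≤ C * B * B * B' * B' := h2
      _ = C * B ^ 2 * B' ^ 2 := by ring
  have hEA : EF F X (fun _ => 1) ≤ A := hL2 L hL22
  have hBB : 0 ≤ B ^ 2 * B' ^ 2 := by positivity
  have k1 := key w Q hw hQ bw bQ
  have k2 := key w' Q hw' hQ bw' bQ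
  have k3 := key w Q' hw hQ' bw bQ'
  have hCB : 0 ≤ C * B ^ 2 * B' ^ 2 := by positivity
  refine ⟨?_, ?_, ?_⟩
  · have : C * B ^ 2 * B' ^ 2 ≤ (2 * A + 6 * C) * B ^ 2 * B' ^ 2 := by
      nlinarith [mul_nonneg hApos.le hBB, mul_nonneg hC.le hBB]
    exact k1.trans this
  · have e1 : EF F X (fun d => G0 q L m w Q d ^ 2) ≤
        EF F X (fun d => 2 * 1 + (2 * m ^ 2) * (Nd q L w d * Md q L Q d) ^ 2) := by
      refine EF_mono F hF hF0 X hXpos _ _ fun d => ?_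
      unfold G0
      nlinarith [sq_nonneg (1 + m * (Nd q L w d * Md q L Q d))]
    rw [EF_add F hF X hXpos (fun _ => 2 * 1) (fun d => (2 * m ^ 2) * (Nd q L w d * Md q L Q d) ^ 2),
      EF_smul F X 2 (fun _ => 1),
      EF_smul F X (2 * m ^ 2) (fun d => (Nd q L w d * Md q L Q d) ^ 2)] at e1
    have e2 := mul_le_mul_of_nonneg_left k1 (show 0 ≤ 2 * m ^ 2 by positivity)
    have e3 : 0 ≤ m ^ 2 * (B ^ 2 * B' ^ 2) := by positivity
    nlinarith [mul_nonneg hApos.le e3, mul_nonneg hC.le e3]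
  · have e1 : EF F X (fun d => G1 q L m m' w w' Q Q' d ^ 2) ≤
        EF F X (fun d => (3 * m' ^ 2) * (Nd q L w d * Md q L Q d) ^ 2 +
          ((3 * m ^ 2) * (Nd q L w' d * Md q L Q d) ^ 2 +
            (3 * m ^ 2) * (Nd q L w d * Md q L Q' d) ^ 2)) := by
      refine EF_mono F hF hF0 X hXpos _ _ fun d => ?_
      unfold G1
      nlinarith [sq_nonneg (m' * (Nd q L w d * Md q L Q d) - m * (Nd q L w' d * Md q L Q d)),
        sq_nonneg (m' * (Nd q L w d * Md q L Q d) - m * (Nd q L w d * Md q L Q' d)),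
        sq_nonneg (m * (Nd q L w' d * Md q L Q d) - m * (Nd q L w d * Md q L Q' d))]
    rw [EF_add F hF X hXpos (fun d => (3 * m' ^ 2) * (Nd q L w d * Md q L Q d) ^ 2)
        (fun d => (3 * m ^ 2) * (Nd q L w' d * Md q L Q d) ^ 2 +
            (3 * m ^ 2) * (Nd q L w d * Md q L Q' d) ^ 2),
      EF_add F hF X hXpos (fun d => (3 * m ^ 2) * (Nd q L w' d * Md q L Q d) ^ 2)
        (fun d => (3 * m ^ 2) * (Nd q L w d * Md q L Q' d) ^ 2),
      EF_smul F X (3 * m' ^ 2) (fun d => (Nd q L w d * Md q L Q d) ^ 2),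
      EF_smul F X (3 * m ^ 2) (fun d => (Nd q L w' d * Md q L Q d) ^ 2),
      EF_smul F X (3 * m ^ 2) (fun d => (Nd q L w d * Md q L Q' d) ^ 2)] at e1
    have e2 := mul_le_mul_of_nonneg_left k1 (show 0 ≤ 3 * m' ^ 2 by positivity)
    have e3 := mul_le_mul_of_nonneg_left k2 (show 0 ≤ 3 * m ^ 2 by positivity)
    have e4 := mul_le_mul_of_nonneg_left k3 (show 0 ≤ 3 * m ^ 2 by positivity)
    have e5 : 0 ≤ (m ^ 2 + m' ^ 2) * (B ^ 2 * B' ^ 2) := by positivity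
    have e6 : 0 ≤ m' ^ 2 * (B ^ 2 * B' ^ 2) := by positivity
    nlinarith [mul_nonneg hApos.le e5, mul_nonneg hC.le e6]

end Pool.Agent.H962R3.RZ_GB
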